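import Pool.Agent.SYS.BD.Cru
import Pool.Agent.SYS.RB.Out

/-!
# SYS-RL: ratio limit with holes (definitions). DO NOT CHANGE.

`Win θ δ M P F g`: `F ≥ M` triangles, genus `g ≈ θ F / 2`, holes `P` of total perimeter `≤ δ F`.
-/

namespace SYS.Num

/-- The window. -/
def Win (θ δ : ℝ) (M : ℕ) (P : Multiset ℕ) (F g : ℕ) : Prop :=
  M ≤ F ∧ |2 * (g : ℝ) - θ * F| ≤ δ * F ∧ (P.sum : ℝ) ≤ δ * F ∧ ∀ q ∈ P, 1 ≤ q

theorem Win.mono {θ δ δ' : ℝ} {M M' : ℕ} {P : Multiset ℕ} {F g : ℕ} (h : Win θ δ M P F g)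
    (h1 : δ ≤ δ') (h2 : M' ≤ M) : Win θ δ' M' P F g := by
  have hF : (0 : ℝ) ≤ F := Nat.cast_nonneg F
  exact ⟨h2.trans h.1, h.2.1.trans (mul_le_mul_of_nonneg_right h1 hF),
    h.2.2.1.trans (mul_le_mul_of_nonneg_right h1 hF), h.2.2.2⟩

theorem Win.sub {θ δ : ℝ} {M : ℕ} {P P' : Multiset ℕ} {F g : ℕ} (h : Win θ δ M P F g)
    (h1 : P'.sum ≤ P.sum) (h2 : ∀ q ∈ P', 1 ≤ q) : Win θ δ M P' F g :=
  ⟨h.1, h.2.1, le_trans (by exact_mod_cast h1) h.2.2.1, h2⟩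

/-- If `F` and `P` change by at most `δ F / 4` the window with `δ / 4` becomes the window with `δ`. -/
theorem Win.shift {θ δ : ℝ} {M : ℕ} {P P' : Multiset ℕ} {F F' g : ℕ} (h : Win θ (δ / 4) (2 * M) P F g)
    (hθ : 0 ≤ θ) (hθ1 : θ ≤ 1 / 2) (hδ : 0 ≤ δ) (hδ1 : δ ≤ 1)
    (h1 : (F : ℝ) ≤ F' + δ / 4 * F) (h1' : (F' : ℝ) ≤ F + δ / 4 * F)
    (h2 : (P'.sum : ℝ) ≤ δ / 4 * F) (h3 : ∀ q ∈ P', 1 ≤ q) : Win θ δ M P' F' g := by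
  obtain ⟨a1, a2, a3, -⟩ := h
  have hF : (0 : ℝ) ≤ F := Nat.cast_nonneg F
  have a1' : 2 * (M : ℝ) ≤ F := by exact_mod_cast a1
  have e1 : δ / 4 * F ≤ 1 / 4 * F := by nlinarith
  have e2 : 3 / 4 * (F : ℝ) ≤ F' := by linarith
  rw [abs_le] at a2
  have e3 : δ / 4 * (F : ℝ) ≤ δ / 3 * F' := by nlinarith
  have e0 : 0 ≤ δ / 4 * (F : ℝ) := by positivity
  have e5 : θ * (δ / 4 * F) ≤ 1 / 2 * (δ / 4 * F) := mul_le_mul_of_nonneg_right hθ1 e0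
  have e6 : θ * F ≤ θ * (F' + δ / 4 * F) := mul_le_mul_of_nonneg_left h1 hθ
  have e7 : θ * F' ≤ θ * (F + δ / 4 * F) := mul_le_mul_of_nonneg_left h1' hθ
  have e8 : 0 ≤ δ * (F' : ℝ) := by positivity
  refine ⟨?_, ?_, by nlinarith, h3⟩
  · have : (M : ℝ) ≤ F' := by linarith
    exact_mod_cast this
  · rw [abs_le]
    constructor <;> nlinarith

end SYS.Num
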