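import Pool.Agent.SYS.RL.Cmp

/-!
# SYS-RL-Far: comparison with far fewer triangles

Notation: `S = P.sum`, `S' = P'.sum`, `o = odds P`, `k = card P`, `y = yy x`, `0 < y < 1`. PROOF.
`far`: `P'` has at most `j` holes more than `P`: `muG P' (F - v) g ≤ (3 (F - v + S')) ^ k' nu ((F - v + S') / 2) g`
with `v ≥ δ₁ F ≥ S' + o` so `(3 (F - v + S')) ^ k' ≤ (3 F) ^ j * (3 (F - o)) ^ k` (if `k' < k`: the base is `≥ 1`; if `F - v + S' = 0` then `P' = 0`,
`F = v`, `muG 0 0 g = 0`; note `3 (F - o) ≥ 1`),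
and `nu ((F - v + S') / 2) g ≤ (y + ε') ^ l * nu ((F - o) / 2) g` with `2 l = v - S' - o ≥ v - 2 δ F ≥ v (1 - 2 δ / δ₁)`;
choose `ε'` with `y + ε' ≤ (1 + ε / 2) y`, `ε ≤ 1` wlog, and then `δ` so small that
`(y + ε') ^ l ≤ √((1 + ε) * y) ^ v` (compare logarithms: `l ≥ v / 2 - δ F`, `v ≥ δ₁ F`).
-/

namespace SYS.Num

variable {θ x : ℝ}

private theorem far_yy (x : ℝ) : yy x ≤ 1 / 4 := by
  have h1 : rr x ^ 2 = Real.cosh x ^ 2 + 2 := by
    unfold rr
    exact Real.sq_sqrt (by positivity)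
  have h2 : 1 ≤ Real.cosh x := Real.one_le_cosh x
  have h0 : 0 ≤ rr x := by
    unfold rr
    positivity
  have h3 : Real.cosh x ≤ rr x := by
    refine abs_le_of_sq_le_sq' ?_ h0 |>.2
    rw [h1]
    linarith
  have h4 : Real.cosh x ≤ rr x ^ 3 := by
    have h5 : (1 : ℝ) ≤ rr x ^ 2 := by
      rw [h1]
      nlinarith
    calc Real.cosh x ≤ rr x * 1 := by linarith
      _ ≤ rr x * rr x ^ 2 := mul_le_mul_of_nonneg_left h5 h0
      _ = rr x ^ 3 := by ring
  have h5 : 0 < rr x ^ 3 := by linarith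
  unfold yy
  rw [div_le_div_iff₀ (by positivity) (by norm_num)]
  linarith

/-- The comparison of the exponentials. -/
private theorem far_exp {y ε η : ℝ} (hy : 0 < y) (hy1 : y ≤ 1 / 4) (hε : 0 < ε) (hε1 : ε ≤ 1)
    (hη : η * -Real.log ((1 + ε / 2) * y) ≤ Real.log (1 + ε) - Real.log (1 + ε / 2)) {l v s : ℕ}
    (h1 : 2 * l + s = v) (h2 : (s : ℝ) ≤ η * v) :
    ((1 + ε / 2) * y) ^ l ≤ √((1 + ε) * y) ^ v := by
  have hb : 0 < (1 + ε / 2) * y := by positivity
  have hb1 : (1 + ε / 2) * y < 1 := by nlinarith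
  have hc : 0 < (1 + ε) * y := by positivity
  have hlb : Real.log ((1 + ε / 2) * y) < 0 := Real.log_neg hb hb1
  have e1 : Real.log ((1 + ε / 2) * y) = Real.log (1 + ε / 2) + Real.log y :=
    Real.log_mul (by positivity) hy.ne'
  have e2 : Real.log ((1 + ε) * y) = Real.log (1 + ε) + Real.log y :=
    Real.log_mul (by positivity) hy.ne'
  have hv : (0 : ℝ) ≤ v := Nat.cast_nonneg v
  have h3 : ((1 + ε / 2) * y) ^ (2 * l) ≤ ((1 + ε) * y) ^ v := by
    rw [← Real.log_le_log_iff (pow_pos hb _) (pow_pos hc _), Real.log_pow, Real.log_pow]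
    have h4 : ((2 * l : ℕ) : ℝ) = v - s := by
      rw [← h1]
      push_cast
      ring
    rw [h4]
    have h5 : -(s : ℝ) * Real.log ((1 + ε / 2) * y) ≤ η * v * -Real.log ((1 + ε / 2) * y) := by
      have := mul_le_mul_of_nonneg_right h2 (neg_pos.2 hlb).le
      linarith
    have h6 : v * (η * -Real.log ((1 + ε / 2) * y)) ≤
        v * (Real.log (1 + ε) - Real.log (1 + ε / 2)) := mul_le_mul_of_nonneg_left hη hv
    have h7 : (v : ℝ) * Real.log ((1 + ε / 2) * y) =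
        v * Real.log (1 + ε / 2) + v * Real.log y := by rw [e1]; ring
    rw [e2]
    nlinarith
  have h4 : 0 ≤ √((1 + ε) * y) ^ v := by positivity
  refine abs_le_of_sq_le_sq' ?_ h4 |>.2
  calc (((1 + ε / 2) * y) ^ l) ^ 2 = ((1 + ε / 2) * y) ^ (2 * l) := by
          rw [← pow_mul, Nat.mul_comm l 2]
    _ ≤ ((1 + ε) * y) ^ v := h3
    _ = (√((1 + ε) * y) ^ v) ^ 2 := by
      rw [← pow_mul, mul_comm v 2, pow_mul, Real.sq_sqrt hc.le]

private theorem far_nn (n g : ℕ) : 0 ≤ SST.nu n g := by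
  unfold SST.nu
  exact div_nonneg (Nat.cast_nonneg _) (Nat.cast_nonneg _)

theorem far (h : Par θ x) {ε δ₁ : ℝ} (hε : 0 < ε) (hδ₁ : 0 < δ₁) : ∃ (δ : ℝ) (M : ℕ), 0 < δ ∧
    ∀ (P P' : Multiset ℕ) (F g v j : ℕ), Win θ δ M P F g → (∀ q ∈ P', 1 ≤ q) →
      (P'.sum : ℝ) ≤ δ * F → Multiset.card P' ≤ Multiset.card P + j → δ₁ * F ≤ v → v ≤ F →
      Even (P.sum + P'.sum + v) →
      muG P' (F - v) g ≤ (3 * (F : ℝ)) ^ j * √((1 + ε) * yy x) ^ v * muG P F g := by
  -- wlog `ε ≤ 1`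
  have hy : 0 < yy x := RB.yy_pos x
  have hy1 := far_yy x
  set y := yy x with hydef
  set e := min ε 1 with he
  have he0 : 0 < e := lt_min hε one_pos
  have he1 : e ≤ 1 := min_le_right _ _
  have heε : e ≤ ε := min_le_left _ _
  -- the parameters
  have hb : 0 < (1 + e / 2) * y := by positivity
  have hb1 : (1 + e / 2) * y < 1 := by nlinarith
  have hlb : Real.log ((1 + e / 2) * y) < 0 := Real.log_neg hb hb1
  have hΔ : 0 < Real.log (1 + e) - Real.log (1 + e / 2) :=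
    sub_pos.2 (Real.log_lt_log (by positivity) (by linarith))
  obtain ⟨η, hη0, hη⟩ : ∃ η : ℝ, 0 < η ∧
      η * -Real.log ((1 + e / 2) * y) ≤ Real.log (1 + e) - Real.log (1 + e / 2) :=
    ⟨(Real.log (1 + e) - Real.log (1 + e / 2)) / -Real.log ((1 + e / 2) * y),
      div_pos hΔ (neg_pos.2 hlb), (div_mul_cancel₀ _ (neg_pos.2 hlb).ne').le⟩
  obtain ⟨δu, Mu, hδu, hu⟩ := nu_up h (ε := e / 2 * y) (by positivity)
  -- `δ ≤ δu / 4, 1 / 4, δ₁ / 2, η * δ₁ / 2`
  set δ : ℝ := min (min (δu / 4) (1 / 4)) (min (δ₁ / 2) (η * δ₁ / 2)) with hδdef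
  have hδ0 : 0 < δ := by positivity
  have hδa : δ ≤ δu / 4 := (min_le_left _ _).trans (min_le_left _ _)
  have hδb : δ ≤ 1 / 4 := (min_le_left _ _).trans (min_le_right _ _)
  have hδc : δ ≤ δ₁ / 2 := (min_le_right _ _).trans (min_le_left _ _)
  have hδd : δ ≤ η * δ₁ / 2 := (min_le_right _ _).trans (min_le_right _ _)
  clear_value δ
  refine ⟨δ, 4 * Mu + 4, hδ0, ?_⟩
  intro P P' F g v j hW hP' hS' hcard hv hvF hev
  obtain ⟨hWF, hWg, hWS, hWP⟩ := hW
  have hF4 : 4 ≤ F := by omega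
  have hF0 : (0 : ℝ) < F := by
    have : 0 < F := by omega
    exact_mod_cast this
  have hmono : (3 * (F : ℝ)) ^ j * √((1 + e) * y) ^ v * muG P F g ≤
      (3 * (F : ℝ)) ^ j * √((1 + ε) * y) ^ v * muG P F g := by
    refine mul_le_mul_of_nonneg_right (mul_le_mul_of_nonneg_left ?_ (by positivity))
      (muG_nonneg _ _ _)
    refine pow_le_pow_left₀ (Real.sqrt_nonneg _) (Real.sqrt_le_sqrt ?_) _
    exact mul_le_mul_of_nonneg_right (by linarith) hy.le
  refine le_trans ?_ hmono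
  have hnn : 0 ≤ (3 * (F : ℝ)) ^ j * √((1 + e) * y) ^ v * muG P F g :=
    mul_nonneg (by positivity) (muG_nonneg _ _ _)
  by_cases hpar : Even (F + P.sum)
  swap
  · rw [muG_odd (P := P') (F := F - v) ?_ g]
    · exact hnn
    · rw [Nat.not_even_iff_odd] at hpar ⊢
      rw [Nat.odd_iff] at hpar ⊢
      rw [Nat.even_iff] at hev
      omega
  by_cases hz : F - v + P'.sum = 0
  · have hS0 : P'.sum = 0 := by omega
    have hFv : F - v = 0 := by omega
    have hP0 : P' = 0 := by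
      refine Multiset.eq_zero_of_forall_notMem fun q hq => ?_
      have h1 := hP' q hq
      have h2 := Multiset.sum_eq_zero_iff.1 hS0 q hq
      omega
    rw [hFv, hP0, muG_zero_zero]
    exact hnn
  have hod := odds_le P
  have hode := odds_even P
  have hodR : (odds P : ℝ) ≤ δ * F := le_trans (by exact_mod_cast hod) hWS
  -- `s = P'.sum + odds P ≤ 2 δ F ≤ v`
  have hs2 : ((P'.sum + odds P : ℕ) : ℝ) ≤ 2 * δ * F := by
    rw [Nat.cast_add]
    linarith
  have hs3 : ((P'.sum + odds P : ℕ) : ℝ) ≤ η * v := by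
    have h1 : η * (δ₁ * F) ≤ η * v := mul_le_mul_of_nonneg_left hv hη0.le
    have h2 : 2 * δ * F ≤ η * δ₁ * F := mul_le_mul_of_nonneg_right (by linarith) hF0.le
    linarith
  have hs4 : P'.sum + odds P ≤ v := by
    have h1 : ((P'.sum + odds P : ℕ) : ℝ) ≤ v := by
      have h2 : 2 * δ * F ≤ δ₁ * F := mul_le_mul_of_nonneg_right (by linarith) hF0.le
      linarith
    exact_mod_cast h1
  have hoF : (odds P : ℝ) ≤ 1 / 4 * F := hodR.trans (mul_le_mul_of_nonneg_right hδb hF0.le)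
  have hoF' : 4 * odds P ≤ F := by
    have : (4 : ℝ) * odds P ≤ F := by linarith
    exact_mod_cast this
  -- `n`, `l`
  obtain ⟨n, hn⟩ : ∃ n, F - odds P = 2 * n := by
    refine ⟨(F - odds P) / 2, ?_⟩
    rw [Nat.even_iff] at hpar hode
    omega
  obtain ⟨l, hl⟩ : ∃ l, 2 * l + (P'.sum + odds P) = v := by
    refine ⟨(v - (P'.sum + odds P)) / 2, ?_⟩
    rw [Nat.even_iff] at hpar hode hev
    omega
  have hnl : (F - v + P'.sum) / 2 = n - l := by omega
  have hln : l ≤ n := by omega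
  have hnR : 2 * (n : ℝ) = F - odds P := by
    have h1 : 2 * n + odds P = F := by omega
    have h2 : (2 : ℝ) * n + odds P = F := by exact_mod_cast h1
    linarith
  -- upper bound
  have hU := UBC P' hP' (F - v) g (by omega)
  rw [hnl] at hU
  -- lower bound
  have hL := LBC P hWP F g (by omega)
  rw [hn, muG_nu n g (by omega)] at hL
  -- `nu`
  have hθ0 := h.1
  have hθ1 := h.2.1
  have hN := hu n g l (by omega) (by
    rw [abs_le] at hWg ⊢
    have h1 : θ * odds P ≤ 1 / 2 * (δ * F) := mul_le_mul hθ1.le hodR (Nat.cast_nonneg _) (by norm_num)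
    have h0 : 0 ≤ θ * odds P := by positivity
    have h2 : θ * (2 * n) = θ * F - θ * odds P := by rw [hnR]; ring
    have h3 : δ * F ≤ δu * n := by
      have h4 : (F : ℝ) ≤ 4 * n := by linarith
      calc δ * F ≤ δu / 4 * F := mul_le_mul_of_nonneg_right hδa hF0.le
        _ ≤ δu / 4 * (4 * n) := mul_le_mul_of_nonneg_left h4 (by positivity)
        _ = δu * n := by ring
    have h5 : 0 ≤ δ * F := by positivity
    constructor <;> linarith [hWg.1, hWg.2]) hln
  have hE : (y + e / 2 * y) ^ l ≤ √((1 + e) * y) ^ v := by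
    have h1 : y + e / 2 * y = (1 + e / 2) * y := by ring
    rw [h1]
    exact far_exp hy hy1 he0 he1 hη hl hs3
  -- the base
  have hbase : (3 * ((F - v + P'.sum : ℕ) : ℝ)) ^ Multiset.card P' ≤
      (3 * (F : ℝ)) ^ j * (3 * ((2 * n : ℕ) : ℝ)) ^ Multiset.card P := by
    have h1 : (1 : ℝ) ≤ ((F - v + P'.sum : ℕ) : ℝ) := by
      have : 1 ≤ F - v + P'.sum := by omega
      exact_mod_cast this
    have h2 : ((F - v + P'.sum : ℕ) : ℝ) ≤ ((2 * n : ℕ) : ℝ) := by
      have : F - v + P'.sum ≤ 2 * n := by omega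
      exact_mod_cast this
    have h3 : ((F - v + P'.sum : ℕ) : ℝ) ≤ F := by
      have : F - v + P'.sum ≤ F := by omega
      exact_mod_cast this
    calc (3 * ((F - v + P'.sum : ℕ) : ℝ)) ^ Multiset.card P'
        ≤ (3 * ((F - v + P'.sum : ℕ) : ℝ)) ^ (Multiset.card P + j) :=
          pow_le_pow_right₀ (by linarith) hcard
      _ = (3 * ((F - v + P'.sum : ℕ) : ℝ)) ^ j * (3 * ((F - v + P'.sum : ℕ) : ℝ)) ^
          Multiset.card P := by rw [pow_add, mul_comm]
      _ ≤ (3 * (F : ℝ)) ^ j * (3 * ((2 * n : ℕ) : ℝ)) ^ Multiset.card P := by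
          refine mul_le_mul ?_ ?_ (by positivity) (by positivity)
          · exact pow_le_pow_left₀ (by positivity) (by linarith) _
          · exact pow_le_pow_left₀ (by positivity) (by linarith) _
  have hnu0 := far_nn n g
  calc muG P' (F - v) g
      ≤ (3 * ((F - v + P'.sum : ℕ) : ℝ)) ^ Multiset.card P' * SST.nu (n - l) g := hU
    _ ≤ ((3 * (F : ℝ)) ^ j * (3 * ((2 * n : ℕ) : ℝ)) ^ Multiset.card P) *
        (√((1 + e) * y) ^ v * SST.nu n g) := by
        refine mul_le_mul hbase ?_ (far_nn _ _) (by positivity)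
        exact hN.trans (mul_le_mul_of_nonneg_right hE hnu0)
    _ = (3 * (F : ℝ)) ^ j * √((1 + e) * y) ^ v *
        ((3 * ((2 * n : ℕ) : ℝ)) ^ Multiset.card P * SST.nu n g) := by ring
    _ ≤ (3 * (F : ℝ)) ^ j * √((1 + e) * y) ^ v * muG P F g :=
        mul_le_mul_of_nonneg_left hL (by positivity)

end SYS.Num
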