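import Pool.Agent.SYS.RL.Rat
import Pool.Agent.SYS.RL.Far

/-!
# SYS-RL-All: powers of the ratio

PROOF. `all_up`: for `2 v ≤ δ₁ F` multiply `ratio` (with `ε y` instead of `ε`) at `F, F - 2, ...` (`Win.shift`); for `2 v > δ₁ F` use `far` with `P' = P`, `j = 0` and the
number of triangles `2 v` there (`√(a) ^ (2 v) = a ^ v`); `F + P.sum` odd: both sides are `0` (`muG_odd`; if `F - 2 v + P.sum` is odd too).
`all_low`: multiply `ratio`. `all_par`: (the same with `√`) `v` even, `v = 2 u`.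
`both`: the two cases `v ≥ v₀` (`all_up` at `F - v₀`) and `v < v₀` (`all_low` at `F - v`).
-/

namespace SYS.Num

variable {θ x : ℝ}

private theorem win_sub (h : Par θ x) {δ : ℝ} {M : ℕ} (hδ0 : 0 < δ) (hδ1 : δ ≤ 1) {P : Multiset ℕ} {F g k : ℕ}
    (hw : Win θ (δ / 4) (2 * M) P F g) (hk : (k : ℝ) ≤ δ / 4 * F) : Win θ δ M P (F - k) g := by
  have hF : (0 : ℝ) ≤ F := Nat.cast_nonneg F
  have hk0 : (0 : ℝ) ≤ k := Nat.cast_nonneg k
  have h1 : (k : ℝ) ≤ F := by nlinarith
  have h2 : k ≤ F := by exact_mod_cast h1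
  have h3 : ((F - k : ℕ) : ℝ) = F - k := Nat.cast_sub h2
  refine hw.shift h.1.le h.2.1.le hδ0.le hδ1 ?_ ?_ hw.2.2.1 hw.2.2.2
  · rw [h3]
    linarith
  · rw [h3]
    have : 0 ≤ δ / 4 * (F : ℝ) := by positivity
    linarith

theorem all_up (h : Par θ x) {ε : ℝ} (hε : 0 < ε) : ∃ (δ : ℝ) (M : ℕ), 0 < δ ∧
    ∀ (P : Multiset ℕ) (F g v : ℕ), Win θ δ M P F g → 2 * v ≤ F →
      muG P (F - 2 * v) g ≤ ((1 + ε) * yy x) ^ v * muG P F g := by
  have hy : 0 < yy x := SYS.RB.yy_pos x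
  obtain ⟨δr, Mr, hδr, hr⟩ := ratio h (mul_pos hε hy)
  set d1 : ℝ := min δr 1 with hd1
  have hd10 : 0 < d1 := lt_min hδr one_pos
  have hd11 : d1 ≤ 1 := min_le_right _ _
  have hd4 : 0 < d1 / 4 := by positivity
  obtain ⟨δf, Mf, hδf, hf⟩ := far h hε hd4
  refine ⟨min (d1 / 4) δf, max (2 * Mr) Mf, lt_min hd4 hδf, ?_⟩
  intro P F g v hw hv
  have hb : 0 ≤ (1 + ε) * yy x := by positivity
  have hw1 : Win θ (d1 / 4) (2 * Mr) P F g := hw.mono (min_le_left _ _) (le_max_left _ _)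
  have hw2 : Win θ δf Mf P F g := hw.mono (min_le_right _ _) (le_max_right _ _)
  by_cases hc : ((2 * v : ℕ) : ℝ) ≤ d1 / 4 * F
  · have key : ∀ j : ℕ, j ≤ v → muG P (F - 2 * j) g ≤ ((1 + ε) * yy x) ^ j * muG P F g := by
      intro j
      induction j with
      | zero =>
        intro _
        rw [mul_zero, Nat.sub_zero, pow_zero, one_mul]
      | succ j ih =>
        intro hj
        have h1 := ih (by omega)
        have h2 : ((2 * j : ℕ) : ℝ) ≤ d1 / 4 * F := by
          refine le_trans ?_ hc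
          exact_mod_cast (by omega : 2 * j ≤ 2 * v)
        have h3 : Win θ δr Mr P (F - 2 * j) g := (win_sub h hd10 hd11 hw1 h2).mono (min_le_left _ _) le_rfl
        have h4 := (hr P (F - 2 * j) g h3).2
        have h5 : F - 2 * (j + 1) = F - 2 * j - 2 := by omega
        have h6 : yy x + ε * yy x = (1 + ε) * yy x := by ring
        rw [h5]
        rw [h6] at h4
        refine h4.trans ((mul_le_mul_of_nonneg_left h1 hb).trans (le_of_eq ?_))
        rw [pow_succ]
        ring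
    exact key v le_rfl
  · rw [not_le] at hc
    have h1 := hf P P F g (2 * v) 0 hw2 hw2.2.2.2 hw2.2.2.1 (by simp) hc.le hv
      ⟨P.sum + v, by ring⟩
    rw [pow_zero, one_mul, pow_mul, Real.sq_sqrt hb] at h1
    exact h1

theorem all_low (h : Par θ x) {ε : ℝ} (hε : 0 < ε) (hε' : ε < 1) : ∃ (δ : ℝ) (M : ℕ), 0 < δ ∧
    ∀ (P : Multiset ℕ) (F g v : ℕ), Win θ δ M P F g → (v : ℝ) ≤ δ * F →
      ((1 - ε) * yy x) ^ v * muG P F g ≤ muG P (F - 2 * v) g := by
  have hy : 0 < yy x := SYS.RB.yy_pos x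
  obtain ⟨δr, Mr, hδr, hr⟩ := ratio h (mul_pos hε hy)
  set d1 : ℝ := min δr 1 with hd1
  have hd10 : 0 < d1 := lt_min hδr one_pos
  have hd11 : d1 ≤ 1 := min_le_right _ _
  refine ⟨d1 / 8, 2 * Mr, by positivity, ?_⟩
  intro P F g v hw hv
  have hb : 0 ≤ (1 - ε) * yy x := mul_nonneg (by linarith) hy.le
  have hw1 : Win θ (d1 / 4) (2 * Mr) P F g := hw.mono (by linarith) le_rfl
  have key : ∀ j : ℕ, j ≤ v → ((1 - ε) * yy x) ^ j * muG P F g ≤ muG P (F - 2 * j) g := by
    intro j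
    induction j with
    | zero =>
      intro _
      rw [mul_zero, Nat.sub_zero, pow_zero, one_mul]
    | succ j ih =>
      intro hj
      have h1 := ih (by omega)
      have h2 : ((2 * j : ℕ) : ℝ) ≤ d1 / 4 * F := by
        have h7 : (j : ℝ) ≤ v := by exact_mod_cast (by omega : j ≤ v)
        push_cast
        linarith
      have h3 : Win θ δr Mr P (F - 2 * j) g := (win_sub h hd10 hd11 hw1 h2).mono (min_le_left _ _) le_rfl
      have h4 := (hr P (F - 2 * j) g h3).1
      have h5 : F - 2 * (j + 1) = F - 2 * j - 2 := by omega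
      have h6 : yy x - ε * yy x = (1 - ε) * yy x := by ring
      rw [h5]
      rw [h6] at h4
      refine le_trans (le_trans (le_of_eq ?_) (mul_le_mul_of_nonneg_left h1 hb)) h4
      rw [pow_succ]
      ring
  exact key v le_rfl

/-- `v₀` triangles less compared with `v` triangles less, in the normalisation with `√y` for
every triangle. -/
theorem both (h : Par θ x) {ε : ℝ} (hε : 0 < ε) : ∃ (δ : ℝ) (M : ℕ), 0 < δ ∧
    ∀ (P : Multiset ℕ) (F g v₀ v : ℕ), Win θ δ M P F g → (v₀ : ℝ) ≤ δ * F → v ≤ F →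
      Even (v₀ + v) →
      muG P (F - v) g * √(yy x) ^ v₀ ≤
        Real.exp (ε * (v₀ + v)) * √(yy x) ^ v * muG P (F - v₀) g := by
  have hy : 0 < yy x := SYS.RB.yy_pos x
  have hsq : √(yy x) ^ 2 = yy x := Real.sq_sqrt hy.le
  have hs0 : 0 ≤ √(yy x) := Real.sqrt_nonneg _
  have he1 : Real.exp (-ε) < 1 := by
    rw [Real.exp_lt_one_iff]
    linarith
  have he0 : 0 < Real.exp (-ε) := Real.exp_pos _
  obtain ⟨δu, Mu, hδu, hu⟩ := all_up h hε
  obtain ⟨δl, Ml, hδl, hl⟩ := all_low h (ε := 1 - Real.exp (-ε)) (by linarith) (by linarith)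
  have hdu0 : 0 < min δu 1 := lt_min hδu one_pos
  have hdu1 : min δu 1 ≤ 1 := min_le_right _ _
  have hdl0 : 0 < min δl 1 := lt_min hδl one_pos
  have hdl1 : min δl 1 ≤ 1 := min_le_right _ _
  refine ⟨min (min δu 1 / 4) (min δl 1 / 4), max (2 * Mu) (2 * Ml), lt_min (by positivity) (by positivity), ?_⟩
  intro P F g v₀ v hw hv₀ hv hev
  have hF : (0 : ℝ) ≤ F := Nat.cast_nonneg F
  have hw1 : Win θ (min δu 1 / 4) (2 * Mu) P F g := hw.mono (min_le_left _ _) (le_max_left _ _)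
  have hw2 : Win θ (min δl 1 / 4) (2 * Ml) P F g := hw.mono (min_le_right _ _) (le_max_right _ _)
  have hk1 : (v₀ : ℝ) ≤ min δu 1 / 4 * F := hv₀.trans (mul_le_mul_of_nonneg_right (min_le_left _ _) hF)
  have hk2 : (v₀ : ℝ) ≤ min δl 1 / 4 * F := hv₀.trans (mul_le_mul_of_nonneg_right (min_le_right _ _) hF)
  have hexp : ∀ u : ℕ, u ≤ v₀ + v → Real.exp (ε * u) ≤ Real.exp (ε * (v₀ + v)) := by
    intro u hu'
    apply Real.exp_le_exp.2
    apply mul_le_mul_of_nonneg_left _ hε.le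
    exact_mod_cast hu'
  rcases le_total v₀ v with hle | hle
  · obtain ⟨u, hu2⟩ : ∃ u, v = v₀ + 2 * u := by
      obtain ⟨k, hk⟩ := hev
      exact ⟨k - v₀, by omega⟩
    have h1 : Win θ δu Mu P (F - v₀) g := (win_sub h hdu0 hdu1 hw1 hk1).mono (min_le_left _ _) le_rfl
    have h2 := hu P (F - v₀) g u h1 (by omega)
    have h3 : F - v = F - v₀ - 2 * u := by omega
    have h4 : √(yy x) ^ v = √(yy x) ^ v₀ * yy x ^ u := by
      rw [hu2, pow_add, pow_mul, hsq]
    have h5 : (1 + ε) ^ u ≤ Real.exp (ε * (v₀ + v)) := by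
      refine le_trans ?_ (hexp u (by omega))
      have h6 : 1 + ε ≤ Real.exp ε := by
        have := Real.add_one_le_exp ε
        linarith
      refine (pow_le_pow_left₀ (by linarith) h6 u).trans (le_of_eq ?_)
      rw [← Real.exp_nat_mul, mul_comm]
    have hm := muG_nonneg P (F - v₀) g
    rw [h3, h4]
    calc muG P (F - v₀ - 2 * u) g * √(yy x) ^ v₀
        ≤ ((1 + ε) * yy x) ^ u * muG P (F - v₀) g * √(yy x) ^ v₀ :=
          mul_le_mul_of_nonneg_right h2 (pow_nonneg hs0 _)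
      _ = (1 + ε) ^ u * (√(yy x) ^ v₀ * yy x ^ u * muG P (F - v₀) g) := by
          rw [mul_pow]
          ring
      _ ≤ Real.exp (ε * (v₀ + v)) * (√(yy x) ^ v₀ * yy x ^ u * muG P (F - v₀) g) := by
          apply mul_le_mul_of_nonneg_right h5
          have := pow_nonneg hs0 v₀
          have := pow_nonneg hy.le u
          positivity
      _ = _ := by ring
  · obtain ⟨u, hu2⟩ : ∃ u, v₀ = v + 2 * u := by
      obtain ⟨k, hk⟩ := hev
      exact ⟨k - v, by omega⟩
    have hvv : (v : ℝ) ≤ v₀ := by exact_mod_cast hle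
    have h1 : Win θ δl Ml P (F - v) g :=
      (win_sub h hdl0 hdl1 hw2 (hvv.trans hk2)).mono (min_le_left _ _) le_rfl
    have hvF : v ≤ F := hv
    have hcast : ((F - v : ℕ) : ℝ) = F - v := Nat.cast_sub hvF
    have hu3 : (v₀ : ℝ) = v + 2 * u := by rw [hu2]; push_cast; ring
    have hul : (u : ℝ) ≤ δl * ((F - v : ℕ) : ℝ) := by
      rw [hcast]
      have h6 : min δl 1 ≤ δl := min_le_left _ _
      have h7 : (v : ℝ) ≤ 1 / 4 * F := by nlinarith
      have h8 : (3 / 4 : ℝ) * F ≤ F - v := by linarith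
      have h9 : δl * (3 / 4 * F) ≤ δl * (F - v) := mul_le_mul_of_nonneg_left h8 hδl.le
      have h10 : min δl 1 * F ≤ δl * F := mul_le_mul_of_nonneg_right h6 hF
      have h11 : (0 : ℝ) ≤ v := Nat.cast_nonneg v
      have h12 : 0 ≤ δl * F := mul_nonneg hδl.le hF
      linarith
    have h2 := hl P (F - v) g u h1 hul
    have h3 : F - v₀ = F - v - 2 * u := by omega
    have h4 : √(yy x) ^ v₀ = √(yy x) ^ v * yy x ^ u := by
      rw [hu2, pow_add, pow_mul, hsq]
    have h5 : (1 : ℝ) - (1 - Real.exp (-ε)) = Real.exp (-ε) := by ring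
    rw [h5] at h2
    have hpos : 0 < Real.exp (ε * u) := Real.exp_pos _
    have h6 : yy x ^ u * muG P (F - v) g ≤ Real.exp (ε * u) * muG P (F - v - 2 * u) g := by
      have h7 := mul_le_mul_of_nonneg_left h2 hpos.le
      refine le_trans (le_of_eq ?_) h7
      have h8 : Real.exp (ε * u) * Real.exp (-ε) ^ u = 1 := by
        rw [← Real.exp_nat_mul, ← Real.exp_add]
        have : ε * u + u * -ε = 0 := by ring
        rw [this, Real.exp_zero]
      calc yy x ^ u * muG P (F - v) g = 1 * (yy x ^ u * muG P (F - v) g) := (one_mul _).symm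
        _ = Real.exp (ε * u) * Real.exp (-ε) ^ u * (yy x ^ u * muG P (F - v) g) := by rw [h8]
        _ = _ := by rw [mul_pow]; ring
    have hm := muG_nonneg P (F - v - 2 * u) g
    rw [h3, h4]
    calc muG P (F - v) g * (√(yy x) ^ v * yy x ^ u)
        = √(yy x) ^ v * (yy x ^ u * muG P (F - v) g) := by ring
      _ ≤ √(yy x) ^ v * (Real.exp (ε * u) * muG P (F - v - 2 * u) g) :=
          mul_le_mul_of_nonneg_left h6 (pow_nonneg hs0 _)
      _ ≤ √(yy x) ^ v * (Real.exp (ε * (v₀ + v)) * muG P (F - v - 2 * u) g) := by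
          apply mul_le_mul_of_nonneg_left _ (pow_nonneg hs0 _)
          exact mul_le_mul_of_nonneg_right (hexp u (by omega)) hm
      _ = _ := by ring

end SYS.Num
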