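import Pool.Agent.SYS.RL.Cmp
import Pool.Agent.SYS.IN.Mono

/-!
# SYS-RL-Rat: the ratio limit with holes (2.5)

`m F = muG P F g`, `S = P.sum`, `y = yy x`. PROOF. If `F + S` is odd both sides are `0` (`muG_odd`). `mono_ratio` divided by `m (F + 2) * m (F + 4)` (positive by
`pos`): with `r F = m F / m (F + 2)`, `N = 3 F + S`: `(N + 6) * r (F + 2) ≤ N * r F + 2`, so
`r (F + 2) ≤ r F + 2 / N ≤ r F + 2 / (3 F)`.
Upper bound: let `δ₁ = min (ε / 8) (1 / 16)`, ..., `R = ⌊δ₁ F⌋ ≥ δ₁ F / 2`. Suppose `m (F - 2) > (y + ε) * m F`. Then for `j < R`: `r (F - 2 - 2 j) ≥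
r (F - 2) - 2 j / (3 (F - 2 - 2 j)) ≥ y + ε / 2`, so `m (F - 2 R) ≥ (y + ε / 2) ^ R * m F`. `cmp_up` with `ε / 4`:
`y ^ S * m (F - 2 R) ≤ (y + ε / 4) ^ R * m F`. So `y ^ S * (y + ε / 2) ^ R ≤ (y + ε / 4) ^ R`, impossible if `S ≤ δ F`, `R ≥ δ₁ F / 2`
and `δ` is small (compare logarithms). Lower bound (wlog `ε ≤ y / 2`: replace `ε` by the minimum): suppose `m (F - 2) < (y - ε) * m F`. Then
`r (F - 2 + 2 j) ≤ y - ε / 2` for `j ≤ R`, so `m F ≤ (y - ε / 2) ^ R * m (F + 2 R)`; `cmp_low` with `ε / 4`: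
`(y - ε / 4) ^ R * (y / 4) ^ S * m (F + 2 R) ≤ m F`; contradiction as before. All the numbers `F ± 2 j`, `j ≤ R + 1`, are in the window with
the `δ` of `pos` (`Win.shift`).
-/

namespace SYS.Num

variable {θ x : ℝ}

private theorem rat_pow {w q : ℝ} (hw : 0 < w) (hq : 1 < q) :
    ∃ K : ℕ, 1 ≤ K ∧ ∀ S R : ℕ, K * S + 1 ≤ R → 1 < w ^ S * q ^ R := by
  obtain ⟨K, hK⟩ := pow_unbounded_of_one_lt (1 / w) hq
  refine ⟨K + 1, by omega, fun S R hR => ?_⟩
  have hq0 : 0 < q := by linarith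
  have h1 : 1 ≤ w * q ^ (K + 1) := by
    have h2 : q ^ K ≤ q ^ (K + 1) := pow_le_pow_right₀ hq.le (by omega)
    have h3 : 1 / w < q ^ (K + 1) := lt_of_lt_of_le hK h2
    rw [div_lt_iff₀ hw] at h3
    linarith
  have h4 : 1 ≤ (w * q ^ (K + 1)) ^ S := one_le_pow₀ h1
  have h5 : q ^ ((K + 1) * S + 1) ≤ q ^ R := pow_le_pow_right₀ hq.le hR
  have h6 : w ^ S * q ^ ((K + 1) * S + 1) = (w * q ^ (K + 1)) ^ S * q := by
    rw [mul_pow, pow_succ q ((K + 1) * S), pow_mul]
    ring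
  have h7 : w ^ S * q ^ ((K + 1) * S + 1) ≤ w ^ S * q ^ R := mul_le_mul_of_nonneg_left h5 (pow_nonneg hw.le _)
  rw [h6] at h7
  nlinarith

private theorem rat_d {N b0 b1 b2 t c : ℝ} (hN : 0 < N) (h0 : 0 < b0) (h1 : 0 < b1) (ht : 0 ≤ t) (hc : 2 ≤ N * c)
    (h : (N + 6) * b1 ^ 2 ≤ b0 * (N * b2 + 2 * b1)) (hb : t * b0 ≤ b1) : (t - c) * b1 ≤ b2 := by
  have e1 : b0 * ((N + 6) * t * b1) ≤ b0 * (N * b2 + 2 * b1) := by
    refine le_trans ?_ h
    have : (N + 6) * b1 * (t * b0) ≤ (N + 6) * b1 * b1 := mul_le_mul_of_nonneg_left hb (by positivity)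
    nlinarith
  have e2 := le_of_mul_le_mul_left e1 h0
  have e3 : 2 * b1 ≤ N * c * b1 := mul_le_mul_of_nonneg_right hc h1.le
  have e4 : 0 ≤ 6 * t * b1 := by positivity
  have e5 : N * ((t - c) * b1) ≤ N * b2 := by nlinarith
  exact le_of_mul_le_mul_left e5 hN

private theorem rat_a {N a0 a1 a2 t c : ℝ} (hN : 0 < N) (h1 : 0 < a1) (h2 : 0 < a2) (hc : 2 ≤ N * c)
    (h : (N + 6) * a1 ^ 2 ≤ a2 * (N * a0 + 2 * a1)) (ha : a0 ≤ t * a1) : a1 ≤ (t + c) * a2 := by
  have e1 : N * a0 ≤ N * (t * a1) := mul_le_mul_of_nonneg_left ha hN.le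
  have e2 : a2 * (N * a0 + 2 * a1) ≤ a2 * ((N * t + 2) * a1) := by
    refine mul_le_mul_of_nonneg_left ?_ h2.le
    nlinarith
  have e3 : a1 * (N * a1) ≤ a1 * (a2 * (N * t + 2)) := by
    have : N * a1 ^ 2 ≤ (N + 6) * a1 ^ 2 := by nlinarith [sq_nonneg a1]
    nlinarith
  have e4 := le_of_mul_le_mul_left e3 h1
  have e5 : a2 * 2 ≤ a2 * (N * c) := mul_le_mul_of_nonneg_left hc h2.le
  have e6 : N * a1 ≤ N * ((t + c) * a2) := by nlinarith
  exact le_of_mul_le_mul_left e6 hN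

private theorem rat_desc (b : ℕ → ℝ) (R : ℕ) {z ε c : ℝ} (hz : 0 ≤ z) (hε : 0 ≤ ε) (hc : 0 ≤ c) (hRc : R * c ≤ ε / 2)
    (hb : ∀ j ≤ R, 0 < b j)
    (hs : ∀ j, j + 2 ≤ R → ∀ t, 0 ≤ t → t * b j ≤ b (j + 1) → (t - c) * b (j + 1) ≤ b (j + 2))
    (h0 : (z + ε) * b 0 ≤ b 1) : ∀ j, j ≤ R → (z + ε / 2) ^ j * b 0 ≤ b j := by
  have hj : ∀ j : ℕ, j ≤ R → (j : ℝ) * c ≤ ε / 2 := by
    intro j hj
    have : (j : ℝ) ≤ R := by exact_mod_cast hj
    exact le_trans (mul_le_mul_of_nonneg_right this hc) hRc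
  have h1 : ∀ j, j + 1 ≤ R → (z + ε - j * c) * b j ≤ b (j + 1) := by
    intro j
    induction j with
    | zero =>
      intro _
      rw [Nat.cast_zero, zero_mul, sub_zero]
      exact h0
    | succ j ih =>
      intro hjR
      have h2 := hs j (by omega) (z + ε - j * c) (by have := hj j (by omega); linarith) (ih (by omega))
      have h3 : z + ε - ((j + 1 : ℕ) : ℝ) * c = z + ε - j * c - c := by push_cast; ring
      rw [h3]
      exact h2
  intro j
  induction j with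
  | zero =>
    intro _
    rw [pow_zero, one_mul]
  | succ j ih =>
    intro hjR
    have h2 := ih (by omega)
    have h3 := h1 j hjR
    have h4 := hj j (by omega)
    have h5 : (z + ε / 2) * b j ≤ (z + ε - j * c) * b j :=
      mul_le_mul_of_nonneg_right (by linarith) (hb j (by omega)).le
    have h6 : (z + ε / 2) * ((z + ε / 2) ^ j * b 0) ≤ (z + ε / 2) * b j :=
      mul_le_mul_of_nonneg_left h2 (by linarith)
    have h7 : (z + ε / 2) ^ (j + 1) * b 0 = (z + ε / 2) * ((z + ε / 2) ^ j * b 0) := by ring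
    rw [h7]
    linarith

private theorem rat_asc (a : ℕ → ℝ) (R : ℕ) {z ε c : ℝ} (hz : 0 ≤ z - ε / 2) (hc : 0 ≤ c) (hRc : R * c ≤ ε / 2)
    (ha : ∀ j ≤ R + 1, 0 < a j)
    (hs : ∀ j, j + 1 ≤ R → ∀ t, a j ≤ t * a (j + 1) → a (j + 1) ≤ (t + c) * a (j + 2))
    (h0 : a 0 ≤ (z - ε) * a 1) : ∀ j, j ≤ R → a 1 ≤ (z - ε / 2) ^ j * a (j + 1) := by
  have hj : ∀ j : ℕ, j ≤ R → (j : ℝ) * c ≤ ε / 2 := by
    intro j hj
    have : (j : ℝ) ≤ R := by exact_mod_cast hj
    exact le_trans (mul_le_mul_of_nonneg_right this hc) hRc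
  have h1 : ∀ j, j ≤ R → a j ≤ (z - ε + j * c) * a (j + 1) := by
    intro j
    induction j with
    | zero =>
      intro _
      rw [Nat.cast_zero, zero_mul, add_zero]
      exact h0
    | succ j ih =>
      intro hjR
      have h2 := hs j hjR (z - ε + j * c) (ih (by omega))
      have h3 : z - ε + ((j + 1 : ℕ) : ℝ) * c = z - ε + j * c + c := by push_cast; ring
      rw [h3]
      exact h2
  intro j
  induction j with
  | zero =>
    intro _
    rw [pow_zero, one_mul]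
  | succ j ih =>
    intro hjR
    have h2 := ih (by omega)
    have h3 := h1 (j + 1) hjR
    have h4 := hj (j + 1) hjR
    have h5 : (z - ε + ((j + 1 : ℕ) : ℝ) * c) * a (j + 1 + 1) ≤ (z - ε / 2) * a (j + 1 + 1) :=
      mul_le_mul_of_nonneg_right (by linarith) (ha (j + 2) (by omega)).le
    have h6 : (z - ε / 2) ^ j * a (j + 1) ≤ (z - ε / 2) ^ j * ((z - ε / 2) * a (j + 1 + 1)) :=
      mul_le_mul_of_nonneg_left (le_trans h3 h5) (pow_nonneg hz j)
    have h7 : (z - ε / 2) ^ (j + 1) * a (j + 1 + 1) = (z - ε / 2) ^ j * ((z - ε / 2) * a (j + 1 + 1)) := by ring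
    rw [h7]
    linarith

theorem ratio (h : Par θ x) {ε : ℝ} (hε : 0 < ε) : ∃ (δ : ℝ) (M : ℕ), 0 < δ ∧
    ∀ (P : Multiset ℕ) (F g : ℕ), Win θ δ M P F g →
      (yy x - ε) * muG P F g ≤ muG P (F - 2) g ∧ muG P (F - 2) g ≤ (yy x + ε) * muG P F g := by
  have hy : 0 < yy x := SYS.RB.yy_pos x
  obtain ⟨e, he⟩ : ∃ e, e = min ε (yy x / 2) := ⟨_, rfl⟩
  have he0 : 0 < e := by rw [he]; exact lt_min hε (by linarith)
  have he1 : e ≤ ε := by rw [he]; exact min_le_left _ _
  have he2 : e ≤ yy x / 2 := by rw [he]; exact min_le_right _ _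
  obtain ⟨δp, Mp, hδp, Hp⟩ := pos h
  obtain ⟨δu, Mu, hδu, Hu⟩ := cmp_up h (ε := e / 4) (by linarith)
  obtain ⟨δl, Ml, hδl, Hl⟩ := cmp_low h (ε := e / 4) (by linarith) (by linarith)
  obtain ⟨Ku, hKu1, hKu⟩ := rat_pow (w := yy x) (q := (yy x + e / 2) / (yy x + e / 4)) hy (by
    rw [lt_div_iff₀ (by linarith)]
    linarith)
  obtain ⟨Kl, hKl1, hKl⟩ := rat_pow (w := yy x / 4) (q := (yy x - e / 4) / (yy x - e / 2)) (by linarith) (by
    rw [lt_div_iff₀ (by linarith)]
    linarith)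
  -- parameters
  obtain ⟨δp', hδp'⟩ : ∃ d, d = min δp 1 := ⟨_, rfl⟩
  have hp0 : 0 < δp' := by rw [hδp']; exact lt_min hδp one_pos
  have hp1 : δp' ≤ δp := by rw [hδp']; exact min_le_left _ _
  have hp2 : δp' ≤ 1 := by rw [hδp']; exact min_le_right _ _
  obtain ⟨d, hd⟩ : ∃ d, d = min (min (δp' / 16) δl) (e / 8) := ⟨_, rfl⟩
  have hd0 : 0 < d := by rw [hd]; exact lt_min (lt_min (by linarith) hδl) (by linarith)
  have hd1 : d ≤ δp' / 16 := by rw [hd]; exact le_trans (min_le_left _ _) (min_le_left _ _)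
  have hd2 : d ≤ δl := by rw [hd]; exact le_trans (min_le_left _ _) (min_le_right _ _)
  have hd3 : d ≤ e / 8 := by rw [hd]; exact min_le_right _ _
  obtain ⟨K, hK⟩ : ∃ K, K = max Ku Kl := ⟨_, rfl⟩
  have hKK1 : Ku ≤ K := by rw [hK]; exact le_max_left _ _
  have hKK2 : Kl ≤ K := by rw [hK]; exact le_max_right _ _
  obtain ⟨M0, hM0⟩ := exists_nat_ge (4 / d)
  obtain ⟨δ, hδ⟩ : ∃ δ, δ = min (min (min (δp' / 4) δu) δl) (d / (2 * (K + 1))) := ⟨_, rfl⟩
  have hK0 : (0 : ℝ) < 2 * ((K : ℝ) + 1) := by positivity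
  have hδ0 : 0 < δ := by
    rw [hδ]
    exact lt_min (lt_min (lt_min (by linarith) hδu) hδl) (div_pos hd0 hK0)
  have hδ1 : δ ≤ δp' / 4 := by
    rw [hδ]; exact le_trans (min_le_left _ _) (le_trans (min_le_left _ _) (min_le_left _ _))
  have hδ2 : δ ≤ δu := by
    rw [hδ]; exact le_trans (min_le_left _ _) (le_trans (min_le_left _ _) (min_le_right _ _))
  have hδ3 : δ ≤ δl := by rw [hδ]; exact le_trans (min_le_left _ _) (min_le_right _ _)
  have hδ4 : δ ≤ d / (2 * (K + 1)) := by rw [hδ]; exact min_le_right _ _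
  refine ⟨δ, max (max (2 * Mp) Mu) (max Ml M0), hδ0, fun P F g hW => ?_⟩
  have hM1 : 2 * Mp ≤ max (max (2 * Mp) Mu) (max Ml M0) := le_trans (le_max_left _ _) (le_max_left _ _)
  have hM2 : Mu ≤ max (max (2 * Mp) Mu) (max Ml M0) := le_trans (le_max_right _ _) (le_max_left _ _)
  have hM3 : Ml ≤ max (max (2 * Mp) Mu) (max Ml M0) := le_trans (le_max_left _ _) (le_max_right _ _)
  have hM4 : M0 ≤ max (max (2 * Mp) Mu) (max Ml M0) := le_trans (le_max_right _ _) (le_max_right _ _)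
  have hFd : 4 ≤ d * F := by
    have h1 : (M0 : ℝ) ≤ F := by exact_mod_cast le_trans hM4 hW.1
    have h2 : 4 / d ≤ F := le_trans hM0 h1
    rw [div_le_iff₀ hd0] at h2
    linarith
  have hd16 : d ≤ 1 / 16 := by linarith
  have hF0 : (0 : ℝ) ≤ F := Nat.cast_nonneg F
  have hF64 : (64 : ℝ) ≤ F := by nlinarith
  have hF64' : 64 ≤ F := by exact_mod_cast hF64
  by_cases hev : Even (F + P.sum)
  swap
  · have h1 : muG P F g = 0 := muG_odd hev g
    have h2 : muG P (F - 2) g = 0 := by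
      apply muG_odd
      intro h3
      apply hev
      have h4 : F + P.sum = (F - 2 + P.sum) + 2 := by omega
      rw [h4]
      exact h3.add even_two
    rw [h1, h2, mul_zero, mul_zero]
    exact ⟨le_refl _, le_refl _⟩
  -- the number of steps
  obtain ⟨R, hR⟩ : ∃ R : ℕ, R = ⌊d * F⌋₊ := ⟨_, rfl⟩
  have hR1 : (R : ℝ) ≤ d * F := by rw [hR]; exact Nat.floor_le (by positivity)
  have hR2 : d * F < R + 1 := by rw [hR]; exact Nat.lt_floor_add_one _
  have hKS : K * P.sum + 1 ≤ R := by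
    have h1 : (P.sum : ℝ) ≤ δ * F := hW.2.2.1
    have h2 : (K : ℝ) * δ ≤ d / 2 := by
      rw [le_div_iff₀ hK0] at hδ4
      nlinarith
    have h3 : (K : ℝ) * P.sum ≤ d / 2 * F := by
      have h4 : (K : ℝ) * P.sum ≤ K * (δ * F) := mul_le_mul_of_nonneg_left h1 (Nat.cast_nonneg K)
      have h5 : (K : ℝ) * δ * F ≤ d / 2 * F := mul_le_mul_of_nonneg_right h2 hF0
      linarith
    have h6 : ((K * P.sum + 1 : ℕ) : ℝ) < ((R + 1 : ℕ) : ℝ) := by
      rw [Nat.cast_add, Nat.cast_mul, Nat.cast_add, Nat.cast_one]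
      linarith
    have h7 : K * P.sum + 1 < R + 1 := by exact_mod_cast h6
    omega
  have hK1 : 1 ≤ K := le_trans hKu1 hKK1
  have hSR : P.sum ≤ R := by
    have : P.sum ≤ K * P.sum := Nat.le_mul_of_pos_left _ hK1
    omega
  have hRF : 8 * R + 8 ≤ F := by
    have h1 : ((8 * R + 8 : ℕ) : ℝ) ≤ F := by
      push_cast
      nlinarith
    exact_mod_cast h1
  -- positivity
  have hpos : ∀ F' : ℕ, F ≤ F' + 2 * (R + 1) → F' ≤ F + 2 * (R + 1) → Even (F' + P.sum) → 0 < muG P F' g := by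
    intro F' h1 h2 h3
    refine Hp P F' g ?_ h3
    have hw1 : Win θ (δp' / 4) (2 * Mp) P F g := hW.mono hδ1 hM1
    have h4 : (2 * ((R : ℝ) + 1)) ≤ δp' / 4 * F := by nlinarith
    have h1' : (F : ℝ) ≤ F' + 2 * (R + 1) := by exact_mod_cast h1
    have h2' : (F' : ℝ) ≤ F + 2 * (R + 1) := by exact_mod_cast h2
    exact (hw1.shift h.1.le (by linarith [h.2.1]) hp0.le hp2 (by linarith) (by linarith) hw1.2.2.1 hW.2.2.2).mono
      hp1 (le_refl _)
  -- the constant of a step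
  have hc : ∀ F' : ℕ, F ≤ 2 * F' → 2 ≤ (3 * (F' : ℝ) + P.sum) * (4 / (3 * F)) := by
    intro F' hF'
    have h1 : (F : ℝ) ≤ 2 * F' := by exact_mod_cast hF'
    have h2 : (0 : ℝ) ≤ P.sum := Nat.cast_nonneg _
    rw [mul_div_assoc', le_div_iff₀ (by linarith)]
    nlinarith
  have hRc : (R : ℝ) * (4 / (3 * F)) ≤ e / 2 := by
    rw [mul_div_assoc', div_le_iff₀ (by linarith)]
    nlinarith
  have hc0 : (0 : ℝ) ≤ 4 / (3 * F) := by positivity
  have hmF : 0 < muG P F g := hpos F (by omega) (by omega) hev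
  constructor
  · -- lower bound
    by_contra hcon
    rw [not_le] at hcon
    have hcon' : muG P (F - 2) g ≤ (yy x - e) * muG P F g := by
      refine le_trans hcon.le (mul_le_mul_of_nonneg_right (by linarith) hmF.le)
    have h1 := rat_asc (fun j => muG P (F - 2 + 2 * j) g) R (z := yy x) (ε := e) (c := 4 / (3 * F)) (by linarith) hc0 hRc
      (fun j hj => hpos _ (by omega) (by omega) (by
        have h4 : F - 2 + 2 * j + P.sum + 2 = (F + P.sum) + 2 * j := by omega
        have h5 : Even (F - 2 + 2 * j + P.sum + 2) := by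
          rw [h4]
          exact hev.add (even_two_mul j)
        rw [Nat.even_add] at h5
        exact h5.2 even_two))
      (fun j hj t ht => by
        have e1 : F - 2 + 2 * (j + 1) = F - 2 + 2 * j + 2 := by ring
        have e2 : F - 2 + 2 * (j + 2) = F - 2 + 2 * j + 4 := by ring
        have hpar : ∀ i : ℕ, Even (F - 2 + 2 * i + P.sum) := by
          intro i
          have h4 : F - 2 + 2 * i + P.sum + 2 = (F + P.sum) + 2 * i := by omega
          have h5 : Even (F - 2 + 2 * i + P.sum + 2) := by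
            rw [h4]
            exact hev.add (even_two_mul i)
          rw [Nat.even_add] at h5
          exact h5.2 even_two
        have p1 := hpos (F - 2 + 2 * (j + 1)) (by omega) (by omega) (hpar _)
        have p2 := hpos (F - 2 + 2 * (j + 2)) (by omega) (by omega) (hpar _)
        have hm := mono_ratio P (F := F - 2 + 2 * j) (by omega) g
        rw [e1] at ht p1 ⊢
        rw [e2] at p2 ⊢
        exact rat_a (N := 3 * ((F - 2 + 2 * j : ℕ) : ℝ) + P.sum) (by
          have : (0 : ℝ) < ((F - 2 + 2 * j : ℕ) : ℝ) := by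
            have : 0 < F - 2 + 2 * j := by omega
            exact_mod_cast this
          positivity) p1 p2 (hc _ (by omega)) hm ht)
      (by
        rw [mul_zero, add_zero, mul_one, Nat.sub_add_cancel (by omega)]
        exact hcon') R (le_refl R)
    rw [mul_one, Nat.sub_add_cancel (by omega), show F - 2 + 2 * (R + 1) = F + 2 * R by omega] at h1
    have h2 := Hl P F g R (hW.mono hδ3 hM3) (le_trans hR1 (mul_le_mul_of_nonneg_right hd2 hF0))
    have hm2 : 0 < muG P (F + 2 * R) g := hpos _ (by omega) (by omega) (by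
      have : F + 2 * R + P.sum = (F + P.sum) + 2 * R := by ring
      rw [this]
      exact hev.add (even_two_mul R))
    have h3 : (yy x - e / 4) ^ R * (yy x / 4) ^ P.sum ≤ (yy x - e / 2) ^ R :=
      le_of_mul_le_mul_right (le_trans h2 h1) hm2
    have h4 := hKl P.sum R (le_trans (by
      have : Kl * P.sum ≤ K * P.sum := Nat.mul_le_mul_right _ hKK2
      omega) hKS)
    have h5 : (0 : ℝ) < (yy x - e / 2) ^ R := pow_pos (by linarith) R
    rw [div_pow (yy x - e / 4), mul_div_assoc', lt_div_iff₀ h5] at h4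
    linarith
  · -- upper bound
    by_contra hcon
    rw [not_le] at hcon
    have hcon' : (yy x + e) * muG P F g ≤ muG P (F - 2) g := by
      refine le_trans (mul_le_mul_of_nonneg_right (by linarith) hmF.le) hcon.le
    have hpar : ∀ i : ℕ, i ≤ R → Even (F - 2 * i + P.sum) := by
      intro i hi
      have h4 : F - 2 * i + P.sum + 2 * i = F + P.sum := by omega
      have h5 : Even (F - 2 * i + P.sum + 2 * i) := by
        rw [h4]
        exact hev
      rw [Nat.even_add] at h5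
      exact h5.2 (even_two_mul i)
    have h1 := rat_desc (fun j => muG P (F - 2 * j) g) R (z := yy x) (ε := e) (c := 4 / (3 * F)) hy.le he0.le hc0 hRc
      (fun j hj => hpos _ (by omega) (by omega) (hpar j hj))
      (fun j hj t ht0 ht => by
        have e1 : F - 2 * (j + 1) = F - 2 * (j + 2) + 2 := by omega
        have e2 : F - 2 * j = F - 2 * (j + 2) + 4 := by omega
        have p1 := hpos (F - 2 * (j + 1)) (by omega) (by omega) (hpar _ (by omega))
        have p2 := hpos (F - 2 * j) (by omega) (by omega) (hpar _ (by omega))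
        have hm := mono_ratio P (F := F - 2 * (j + 2)) (by omega) g
        rw [e1] at ht p1 ⊢
        rw [e2] at ht p2
        exact rat_d (N := 3 * ((F - 2 * (j + 2) : ℕ) : ℝ) + P.sum) (by
          have : (0 : ℝ) < ((F - 2 * (j + 2) : ℕ) : ℝ) := by
            have : 0 < F - 2 * (j + 2) := by omega
            exact_mod_cast this
          positivity) p2 p1 ht0 (hc _ (by omega)) hm ht)
      (by
        rw [mul_zero, Nat.sub_zero, mul_one]
        exact hcon') R (le_refl R)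
    rw [mul_zero, Nat.sub_zero] at h1
    have h2 := Hu P F g R (hW.mono hδ2 hM2) hSR (by omega)
    have h3 : yy x ^ P.sum * (yy x + e / 2) ^ R ≤ (yy x + e / 4) ^ R := by
      have h4 : yy x ^ P.sum * ((yy x + e / 2) ^ R * muG P F g) ≤ (yy x + e / 4) ^ R * muG P F g :=
        le_trans (mul_le_mul_of_nonneg_left h1 (pow_nonneg hy.le _)) h2
      rw [← mul_assoc] at h4
      exact le_of_mul_le_mul_right h4 hmF
    have h4 := hKu P.sum R (le_trans (by
      have : Ku * P.sum ≤ K * P.sum := Nat.mul_le_mul_right _ hKK1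
      omega) hKS)
    have h5 : (0 : ℝ) < (yy x + e / 4) ^ R := pow_pos (by linarith) R
    rw [div_pow, mul_div_assoc', lt_div_iff₀ h5] at h4
    linarith

end SYS.Num
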