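import Pool.Agent.SYS.RL.Nu

/-!
# SYS-RL-Cmp: comparison of the numbers with holes (2.3)

Notation: `S = P.sum`, `o = odds P`, `k = card P`, `y = yy x`, `0 < y < 1`. PROOF. `odds_le`, `odds_even`: induction on `P` (`odds_cons` is
private in `BD/Cru.lean`; `odds` is defined there). `UBC`, `LBC` (`BD/Cru.lean`), `muG_nu` (`BD/Mg.lean`): `muG 0 (F - o) g = nu ((F - o) / 2) g`.
`pos`: `LBC`, `nu_low` (with `l = 0`, `n = (F - o) / 2`), `F - o ≥ 1`.
`cmp_up`: `muG P (F - 2 R) g ≤ (3 (F - 2 R + S)) ^ k * nu ((F - 2 R + S) / 2) g ≤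
(3 (F - o)) ^ k * (y + ε) ^ l * nu ((F - o) / 2) g ≤ (y + ε) ^ l * muG P F g` with `l = R - (S + o) / 2 ≥ 0`
(`nu_up` at `n = (F - o) / 2`), and `(y + ε) ^ l * y ^ S ≤ (y + ε) ^ R` because `l + S ≥ R`, `(S + o) / 2 ≤ S`, `y ≤ y + ε`, `y ≤ 1`:
`(y + ε) ^ l * y ^ S ≤ (y + ε) ^ l * y ^ ((S + o) / 2) ≤ (y + ε) ^ R`. (`F - 2 R + S = 0` only if `P = 0`: then `muG 0 0 g = 0`.)
`cmp_low`: `muG P (F + 2 R) g ≤ (3 (F + 2 R + S)) ^ k * nu ((F + 2 R + S) / 2) g`,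
`(3 (F + 2 R + S)) ^ k ≤ 2 ^ k * (3 (F - o)) ^ k` for small `δ`, `k ≤ S`, and `nu_low` at `n = (F + 2 R + S) / 2` with
`l = R + (S + o) / 2`; `(y - ε) ^ ((S + o) / 2) ≥ (y / 2) ^ S`.
-/

namespace SYS.Num

variable {θ x : ℝ}

private theorem cmp_odds_cons (p : ℕ) (Q : Multiset ℕ) : odds (p ::ₘ Q) = odds Q + p % 2 := by
  unfold odds
  rcases Nat.mod_two_eq_zero_or_one p with h | h
  · rw [Multiset.filter_cons_of_neg (p := fun p => p % 2 = 1) Q (by omega), h, add_zero]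
  · rw [Multiset.filter_cons_of_pos (p := fun p => p % 2 = 1) Q h, h, Multiset.card_cons]

theorem odds_le (P : Multiset ℕ) : odds P ≤ P.sum := by
  induction P using Multiset.induction_on with
  | empty => exact le_rfl
  | cons p Q ih =>
    rw [cmp_odds_cons, Multiset.sum_cons]
    have := Nat.mod_le p 2
    omega

theorem odds_even (P : Multiset ℕ) : Even (P.sum + odds P) := by
  induction P using Multiset.induction_on with
  | empty => exact Even.zero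
  | cons p Q ih =>
    rw [cmp_odds_cons, Multiset.sum_cons]
    rw [Nat.even_iff] at ih ⊢
    omega

theorem card_le_sum {P : Multiset ℕ} (h : ∀ q ∈ P, 1 ≤ q) : Multiset.card P ≤ P.sum := by
  induction P using Multiset.induction_on with
  | empty => exact le_rfl
  | cons p Q ih =>
    rw [Multiset.card_cons, Multiset.sum_cons]
    have h1 := h p (Multiset.mem_cons_self p Q)
    have h2 := ih fun q hq => h q (Multiset.mem_cons_of_mem hq)
    omega

private theorem cmp_nu_nn (n g : ℕ) : 0 ≤ SST.nu n g := by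
  unfold SST.nu
  exact div_nonneg (Nat.cast_nonneg _) (Nat.cast_nonneg _)

private theorem cmp_y (x : ℝ) : 0 < yy x ∧ yy x ≤ 1 := by
  have hc : 1 ≤ Real.cosh x := Real.one_le_cosh x
  have hs : rr x ^ 2 = Real.cosh x ^ 2 + 2 := by
    unfold rr
    exact Real.sq_sqrt (by positivity)
  have hr0 : 0 ≤ rr x := Real.sqrt_nonneg _
  have hr : Real.cosh x ≤ rr x := by
    unfold rr
    exact Real.le_sqrt_of_sq_le (by linarith)
  have hr1 : 1 ≤ rr x := hc.trans hr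
  have hr3 : 1 ≤ rr x ^ 2 := one_le_pow₀ hr1
  unfold yy
  constructor
  · positivity
  · rw [div_le_one (by positivity)]
    have : rr x ^ 3 = rr x * rr x ^ 2 := by ring
    nlinarith

/-- lower bound in the window -/
private theorem cmp_lbc {θ δ : ℝ} {M : ℕ} {P : Multiset ℕ} {F g : ℕ} (hW : Win θ δ M P F g)
    (hδ : δ ≤ 1 / 4) (hM : 4 ≤ M) (he : Even (F + P.sum)) :
    ∃ n : ℕ, F = 2 * n + odds P ∧ 1 ≤ n ∧ (F : ℝ) ≤ 4 * n ∧
      (3 * ((2 * n : ℕ) : ℝ)) ^ Multiset.card P * SST.nu n g ≤ muG P F g := by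
  obtain ⟨h1, -, h3, h4⟩ := hW
  have ho := odds_le P
  have hoe := odds_even P
  have hF : (4 : ℝ) ≤ F := by exact_mod_cast hM.trans h1
  have ho' : (odds P : ℝ) ≤ F / 4 := by
    have : (odds P : ℝ) ≤ P.sum := by exact_mod_cast ho
    nlinarith
  have hoF : odds P + 1 ≤ F := by
    have h5 : (odds P : ℝ) + 1 ≤ F := by linarith
    exact_mod_cast h5
  rw [Nat.even_iff] at he hoe
  refine ⟨(F - odds P) / 2, by omega, by
    have h5 : (odds P : ℝ) + 2 ≤ F := by linarith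
    have h6 : odds P + 2 ≤ F := by exact_mod_cast h5
    omega, ?_, ?_⟩
  · have h5 : 2 * ((F - odds P) / 2) + odds P = F := by omega
    have h6 : 2 * (((F - odds P) / 2 : ℕ) : ℝ) + odds P = F := by exact_mod_cast h5
    linarith
  · have h5 : 2 * ((F - odds P) / 2) = F - odds P := by omega
    have h6 : 1 ≤ (F - odds P) / 2 := by
      have h5 : (odds P : ℝ) + 2 ≤ F := by linarith
      have h6 : odds P + 2 ≤ F := by exact_mod_cast h5
      omega
    have h7 := LBC P h4 F g hoF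
    rw [← h5, muG_nu _ g h6] at h7
    exact h7

private theorem cmp_par {θ x : ℝ} (h : Par θ x) : 0 ≤ θ ∧ θ ≤ 1 / 2 := ⟨h.1.le, h.2.1.le⟩

/-- the window for the number `n` of the surface without holes -/
private theorem cmp_win {θ δ δ0 : ℝ} {F g n : ℕ} (hθ : 0 ≤ θ) (hθ1 : θ ≤ 1 / 2) (hδ : 0 < δ)
    (hδ0 : δ ≤ δ0 / 16) (h1 : |2 * (g : ℝ) - θ * F| ≤ δ * F) (h2 : |2 * (n : ℝ) - F| ≤ 3 * δ * F)
    (h3 : (F : ℝ) ≤ 4 * n) : |(g : ℝ) - θ * n| ≤ δ0 * n := by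
  have hF : (0 : ℝ) ≤ F := Nat.cast_nonneg F
  have hn : (0 : ℝ) ≤ n := Nat.cast_nonneg n
  rw [abs_le] at h1 h2 ⊢
  have e0 : 0 ≤ 3 * δ * (F : ℝ) := by positivity
  have a1 : θ * (2 * n - F) ≤ 1 / 2 * (3 * δ * F) := by
    have b1 : θ * (2 * n - F) ≤ θ * (3 * δ * F) := mul_le_mul_of_nonneg_left h2.2 hθ
    have b2 : θ * (3 * δ * F) ≤ 1 / 2 * (3 * δ * F) := mul_le_mul_of_nonneg_right hθ1 e0
    linarith
  have a2 : -(1 / 2 * (3 * δ * F)) ≤ θ * (2 * n - F) := by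
    have b1 : θ * (-(3 * δ * F)) ≤ θ * (2 * n - F) := mul_le_mul_of_nonneg_left h2.1 hθ
    have b2 : θ * (3 * δ * F) ≤ 1 / 2 * (3 * δ * F) := mul_le_mul_of_nonneg_right hθ1 e0
    linarith
  have a3 : δ * F ≤ δ0 / 4 * n := by
    have b1 : δ * F ≤ δ * (4 * n) := mul_le_mul_of_nonneg_left h3 hδ.le
    have b2 : δ * (4 * n) ≤ δ0 / 16 * (4 * n) := mul_le_mul_of_nonneg_right hδ0 (by positivity)
    linarith
  have a4 : 0 ≤ δ * (F : ℝ) := by positivity
  constructor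
  · nlinarith
  · nlinarith

theorem pos (h : Par θ x) : ∃ (δ : ℝ) (M : ℕ), 0 < δ ∧ ∀ (P : Multiset ℕ) (F g : ℕ),
    Win θ δ M P F g → Even (F + P.sum) → 0 < muG P F g := by
  obtain ⟨hy0, hy1⟩ := cmp_y x
  obtain ⟨δ0, M0, hδ0, H⟩ := nu_low h (ε := yy x / 2) (by linarith) (by linarith)
  obtain ⟨hθ, hθ1⟩ := cmp_par h
  refine ⟨min (δ0 / 16) (1 / 4), max 4 (4 * M0), by positivity, ?_⟩
  intro P F g hW he
  set δ := min (δ0 / 16) (1 / 4) with hδ
  have hδ1 : δ ≤ δ0 / 16 := min_le_left _ _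
  have hδ2 : δ ≤ 1 / 4 := min_le_right _ _
  have hδp : 0 < δ := by positivity
  obtain ⟨n, hn1, hn2, hn3, hn4⟩ := cmp_lbc hW hδ2 (le_max_left _ _) he
  obtain ⟨w1, w2, w3, w4⟩ := hW
  have hFn : (F : ℝ) = 2 * n + odds P := by exact_mod_cast hn1
  have ho : (odds P : ℝ) ≤ P.sum := by exact_mod_cast odds_le P
  have ho0 : (0 : ℝ) ≤ odds P := Nat.cast_nonneg _
  have hF0 : (0 : ℝ) ≤ F := Nat.cast_nonneg _
  have hδF : 0 ≤ δ * F := by positivity
  have hwin := cmp_win hθ hθ1 hδp hδ1 w2 (n := n) (by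
    rw [abs_le]
    constructor <;> linarith) hn3
  have hnM : M0 ≤ n := by
    have h5 : 4 * M0 ≤ F := (le_max_right 4 (4 * M0)).trans w1
    have h6 : (4 * (M0 : ℝ)) ≤ F := by exact_mod_cast h5
    have h7 : (M0 : ℝ) ≤ n := by linarith
    exact_mod_cast h7
  have h8 := (H n g 0 hnM hwin (by
    rw [Nat.cast_zero]
    positivity)).1
  rw [Nat.sub_zero] at h8
  refine lt_of_lt_of_le ?_ hn4
  have h9 : (0 : ℝ) < ((2 * n : ℕ) : ℝ) := by exact_mod_cast (by omega : 0 < 2 * n)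
  positivity

theorem cmp_up (h : Par θ x) {ε : ℝ} (hε : 0 < ε) : ∃ (δ : ℝ) (M : ℕ), 0 < δ ∧
    ∀ (P : Multiset ℕ) (F g R : ℕ), Win θ δ M P F g → P.sum ≤ R → 2 * R ≤ F →
      yy x ^ P.sum * muG P (F - 2 * R) g ≤ (yy x + ε) ^ R * muG P F g := by
  obtain ⟨hy0, hy1⟩ := cmp_y x
  obtain ⟨δ0, M0, hδ0, H⟩ := nu_up h hε
  obtain ⟨hθ, hθ1⟩ := cmp_par h
  refine ⟨min (δ0 / 16) (1 / 4), max 4 (4 * M0), by positivity, ?_⟩
  intro P F g R hW hPR hRF
  set δ := min (δ0 / 16) (1 / 4) with hδ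
  have hδ1 : δ ≤ δ0 / 16 := min_le_left _ _
  have hδ2 : δ ≤ 1 / 4 := min_le_right _ _
  have hδp : 0 < δ := by positivity
  have hR0 : 0 ≤ (yy x + ε) ^ R * muG P F g := mul_nonneg (by positivity) (muG_nonneg _ _ _)
  by_cases he : Even (F + P.sum)
  swap
  · have he' : ¬ Even (F - 2 * R + P.sum) := by
      rw [Nat.even_iff] at he ⊢
      omega
    rw [muG_odd he', mul_zero]
    exact hR0
  by_cases hz : F - 2 * R + P.sum = 0
  · have hF0 : F - 2 * R = 0 := by omega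
    have hP0 : P = 0 := by
      have h1 := card_le_sum hW.2.2.2
      rw [← Multiset.card_eq_zero]
      omega
    rw [hF0, hP0, muG_zero_zero, mul_zero]
    rw [hP0] at hR0
    exact hR0
  obtain ⟨n, hn1, hn2, hn3, hn4⟩ := cmp_lbc hW hδ2 (le_max_left _ _) he
  obtain ⟨w1, w2, w3, w4⟩ := hW
  have hFn : (F : ℝ) = 2 * n + odds P := by exact_mod_cast hn1
  have hole := odds_le P
  have hoe := odds_even P
  have ho : (odds P : ℝ) ≤ P.sum := by exact_mod_cast hole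
  have ho0 : (0 : ℝ) ≤ odds P := Nat.cast_nonneg _
  have hF0 : (0 : ℝ) ≤ F := Nat.cast_nonneg _
  have hδF : 0 ≤ δ * F := by positivity
  have hwin := cmp_win hθ hθ1 hδp hδ1 w2 (n := n) (by
    rw [abs_le]
    constructor <;> linarith) hn3
  have hnM : M0 ≤ n := by
    have h5 : 4 * M0 ≤ F := (le_max_right 4 (4 * M0)).trans w1
    have h6 : (4 * (M0 : ℝ)) ≤ F := by exact_mod_cast h5
    have h7 : (M0 : ℝ) ≤ n := by linarith
    exact_mod_cast h7
  rw [Nat.even_iff] at he hoe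
  obtain ⟨t, ht⟩ : ∃ t : ℕ, P.sum + odds P = 2 * t := ⟨(P.sum + odds P) / 2, by omega⟩
  have htR : t ≤ R := by omega
  obtain ⟨l, hl⟩ : ∃ l : ℕ, R = l + t := ⟨R - t, by omega⟩
  have hln : l ≤ n := by omega
  have hnl : (F - 2 * R + P.sum) / 2 = n - l := by omega
  have h1 := UBC P w4 (F - 2 * R) g (by omega)
  rw [hnl] at h1
  have h2 := H n g l hnM hwin hln
  have hb : (((F - 2 * R + P.sum : ℕ)) : ℝ) ≤ ((2 * n : ℕ) : ℝ) := by
    have : F - 2 * R + P.sum ≤ 2 * n := by omega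
    exact_mod_cast this
  have h3 : (3 * ((F - 2 * R + P.sum : ℕ) : ℝ)) ^ Multiset.card P ≤
      (3 * ((2 * n : ℕ) : ℝ)) ^ Multiset.card P := by
    apply pow_le_pow_left₀ (by positivity)
    linarith
  have h4 : muG P (F - 2 * R) g ≤ (yy x + ε) ^ l * muG P F g := by
    calc muG P (F - 2 * R) g ≤ (3 * ((F - 2 * R + P.sum : ℕ) : ℝ)) ^ Multiset.card P *
          SST.nu (n - l) g := h1
      _ ≤ (3 * ((2 * n : ℕ) : ℝ)) ^ Multiset.card P * ((yy x + ε) ^ l * SST.nu n g) :=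
          mul_le_mul h3 h2 (cmp_nu_nn _ _) (by positivity)
      _ = (yy x + ε) ^ l * ((3 * ((2 * n : ℕ) : ℝ)) ^ Multiset.card P * SST.nu n g) := by ring
      _ ≤ (yy x + ε) ^ l * muG P F g := mul_le_mul_of_nonneg_left hn4 (by positivity)
  have h5 : yy x ^ P.sum ≤ (yy x + ε) ^ t := by
    have a1 : yy x ^ P.sum ≤ yy x ^ t := pow_le_pow_of_le_one hy0.le hy1 (by omega)
    exact a1.trans (pow_le_pow_left₀ hy0.le (by linarith) t)
  calc yy x ^ P.sum * muG P (F - 2 * R) g ≤ (yy x + ε) ^ t * ((yy x + ε) ^ l * muG P F g) :=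
        mul_le_mul h5 h4 (muG_nonneg _ _ _) (by positivity)
    _ = (yy x + ε) ^ R * muG P F g := by
        rw [hl, pow_add]
        ring

theorem cmp_low (h : Par θ x) {ε : ℝ} (hε : 0 < ε) (hε' : ε ≤ yy x / 2) :
    ∃ (δ : ℝ) (M : ℕ), 0 < δ ∧
    ∀ (P : Multiset ℕ) (F g R : ℕ), Win θ δ M P F g → (R : ℝ) ≤ δ * F →
      (yy x - ε) ^ R * (yy x / 4) ^ P.sum * muG P (F + 2 * R) g ≤ muG P F g := by
  obtain ⟨hy0, hy1⟩ := cmp_y x
  obtain ⟨δ0, M0, hδ0, H⟩ := nu_low h hε (by linarith)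
  obtain ⟨hθ, hθ1⟩ := cmp_par h
  refine ⟨min (δ0 / 16) (1 / 8), max 4 (4 * M0), by positivity, ?_⟩
  intro P F g R hW hR
  set δ := min (δ0 / 16) (1 / 8) with hδ
  have hδ1 : δ ≤ δ0 / 16 := min_le_left _ _
  have hδ2 : δ ≤ 1 / 8 := min_le_right _ _
  have hδp : 0 < δ := by positivity
  have hye : 0 ≤ yy x - ε := by linarith
  by_cases he : Even (F + P.sum)
  swap
  · have he' : ¬ Even (F + 2 * R + P.sum) := by
      rw [Nat.even_iff] at he ⊢
      omega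
    rw [muG_odd he', mul_zero]
    exact muG_nonneg _ _ _
  obtain ⟨n, hn1, hn2, hn3, hn4⟩ := cmp_lbc hW (by linarith) (le_max_left _ _) he
  obtain ⟨w1, w2, w3, w4⟩ := hW
  have hFn : (F : ℝ) = 2 * n + odds P := by exact_mod_cast hn1
  have hole := odds_le P
  have hoe := odds_even P
  have hcs := card_le_sum w4
  have ho : (odds P : ℝ) ≤ P.sum := by exact_mod_cast hole
  have ho0 : (0 : ℝ) ≤ odds P := Nat.cast_nonneg _
  have hF0 : (0 : ℝ) ≤ F := Nat.cast_nonneg _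
  have hRn : (0 : ℝ) ≤ R := Nat.cast_nonneg _
  have hδF : 0 ≤ δ * F := by positivity
  have hδF2 : δ * F ≤ 1 / 8 * F := mul_le_mul_of_nonneg_right hδ2 hF0
  rw [Nat.even_iff] at he hoe
  obtain ⟨t, ht⟩ : ∃ t : ℕ, P.sum + odds P = 2 * t := ⟨(P.sum + odds P) / 2, by omega⟩
  have hnN : F + 2 * R + P.sum = 2 * (n + (R + t)) := by omega
  have hnN' : (F : ℝ) + 2 * R + P.sum = 2 * ((n + (R + t) : ℕ) : ℝ) := by exact_mod_cast hnN
  have hP0 : (0 : ℝ) ≤ P.sum := Nat.cast_nonneg _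
  have hwin := cmp_win hθ hθ1 hδp hδ1 w2 (n := n + (R + t)) (by
    rw [abs_le]
    constructor <;> linarith) (by linarith)
  have hnM : M0 ≤ n + (R + t) := by
    have h5 : 4 * M0 ≤ F := (le_max_right 4 (4 * M0)).trans w1
    have h6 : (4 * (M0 : ℝ)) ≤ F := by exact_mod_cast h5
    have h7 : (M0 : ℝ) ≤ ((n + (R + t) : ℕ) : ℝ) := by linarith
    exact_mod_cast h7
  have hl : (((R + t : ℕ)) : ℝ) ≤ δ0 * ((n + (R + t) : ℕ) : ℝ) := by
    have a1 : (t : ℝ) ≤ P.sum := by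
      have : t ≤ P.sum := by omega
      exact_mod_cast this
    have a2 : δ * F ≤ δ0 / 16 * (2 * ((n + (R + t) : ℕ) : ℝ)) := by
      rw [← hnN']
      have b1 : (F : ℝ) ≤ F + 2 * R + P.sum := by linarith
      calc δ * F ≤ δ0 / 16 * F := mul_le_mul_of_nonneg_right hδ1 hF0
        _ ≤ δ0 / 16 * (F + 2 * R + P.sum) := mul_le_mul_of_nonneg_left b1 (by positivity)
    have a3 : (0 : ℝ) ≤ δ0 * ((n + (R + t) : ℕ) : ℝ) := by positivity
    have a4 : ((R + t : ℕ) : ℝ) = R + t := by push_cast; ring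
    rw [a4]
    linarith
  have h1 := (H (n + (R + t)) g (R + t) hnM hwin hl).2
  rw [Nat.add_sub_cancel] at h1
  have h2 := UBC P w4 (F + 2 * R) g (by omega)
  rw [hnN, Nat.mul_div_cancel_left _ (by norm_num : 0 < 2)] at h2
  have hpow : (3 * ((2 * (n + (R + t)) : ℕ) : ℝ)) ^ Multiset.card P ≤
      2 ^ P.sum * (3 * ((2 * n : ℕ) : ℝ)) ^ Multiset.card P := by
    have a1 : ((2 * (n + (R + t)) : ℕ) : ℝ) ≤ 2 * ((2 * n : ℕ) : ℝ) := by
      have b1 : ((2 * (n + (R + t)) : ℕ) : ℝ) = F + 2 * R + P.sum := by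
        rw [hnN']
        push_cast
        ring
      have b2 : ((2 * n : ℕ) : ℝ) = F - odds P := by
        rw [hFn]
        push_cast
        ring
      rw [b1, b2]
      linarith
    have a2 : (3 * ((2 * (n + (R + t)) : ℕ) : ℝ)) ^ Multiset.card P ≤
        (2 * (3 * ((2 * n : ℕ) : ℝ))) ^ Multiset.card P := by
      apply pow_le_pow_left₀ (by positivity)
      linarith
    rw [mul_pow 2 (3 * ((2 * n : ℕ) : ℝ))] at a2
    have a3 : (2 : ℝ) ^ Multiset.card P ≤ 2 ^ P.sum :=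
      pow_le_pow_right₀ (by norm_num : (1 : ℝ) ≤ 2) hcs
    have a4 : 0 ≤ (3 * ((2 * n : ℕ) : ℝ)) ^ Multiset.card P := by positivity
    exact a2.trans (mul_le_mul_of_nonneg_right a3 a4)
  have hq : (yy x / 4) ^ P.sum * 2 ^ P.sum ≤ (yy x - ε) ^ t := by
    have a1 : (yy x / 4) ^ P.sum * 2 ^ P.sum = (yy x / 2) ^ P.sum := by
      rw [← mul_pow]
      congr 1
      ring
    rw [a1]
    have a2 : (yy x / 2) ^ P.sum ≤ (yy x / 2) ^ t :=
      pow_le_pow_of_le_one (by positivity) (by linarith) (by omega)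
    exact a2.trans (pow_le_pow_left₀ (by positivity) (by linarith) t)
  have hA : 0 ≤ (3 * ((2 * n : ℕ) : ℝ)) ^ Multiset.card P := by positivity
  calc (yy x - ε) ^ R * (yy x / 4) ^ P.sum * muG P (F + 2 * R) g
      ≤ (yy x - ε) ^ R * (yy x / 4) ^ P.sum *
        ((3 * ((2 * (n + (R + t)) : ℕ) : ℝ)) ^ Multiset.card P * SST.nu (n + (R + t)) g) :=
        mul_le_mul_of_nonneg_left h2 (by positivity)
    _ ≤ (yy x - ε) ^ R * (yy x / 4) ^ P.sum *
        (2 ^ P.sum * (3 * ((2 * n : ℕ) : ℝ)) ^ Multiset.card P * SST.nu (n + (R + t)) g) :=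
        mul_le_mul_of_nonneg_left (mul_le_mul_of_nonneg_right hpow (cmp_nu_nn _ _))
          (by positivity)
    _ = (3 * ((2 * n : ℕ) : ℝ)) ^ Multiset.card P * ((yy x - ε) ^ R *
        ((yy x / 4) ^ P.sum * 2 ^ P.sum) * SST.nu (n + (R + t)) g) := by ring
    _ ≤ (3 * ((2 * n : ℕ) : ℝ)) ^ Multiset.card P * ((yy x - ε) ^ R *
        (yy x - ε) ^ t * SST.nu (n + (R + t)) g) := by
        refine mul_le_mul_of_nonneg_left ?_ hA
        refine mul_le_mul_of_nonneg_right ?_ (cmp_nu_nn _ _)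
        exact mul_le_mul_of_nonneg_left hq (by positivity)
    _ = (3 * ((2 * n : ℕ) : ℝ)) ^ Multiset.card P * ((yy x - ε) ^ (R + t) *
        SST.nu (n + (R + t)) g) := by rw [pow_add]
    _ ≤ (3 * ((2 * n : ℕ) : ℝ)) ^ Multiset.card P * SST.nu n g :=
        mul_le_mul_of_nonneg_left h1 hA
    _ ≤ muG P F g := hn4

end SYS.Num
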