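import Pool.Agent.SYS.RL.Defs

/-!
# SYS-RL-Nu: ratios of the numbers without holes
-/

namespace SYS.Num

variable {θ x : ℝ}

private theorem nu_nonneg' (n g : ℕ) : 0 ≤ SST.nu n g := by
  unfold SST.nu
  positivity

theorem nu_up (h : Par θ x) {ε : ℝ} (hε : 0 < ε) : ∃ (δ : ℝ) (M : ℕ), 0 < δ ∧ ∀ n g l : ℕ, M ≤ n →
    |(g : ℝ) - θ * n| ≤ δ * n → l ≤ n → SST.nu (n - l) g ≤ (yy x + ε) ^ l * SST.nu n g := by
  obtain ⟨δ1, hδ1, n1, h1⟩ := SYS.RB.rat_plus h hε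
  have hθ := h.1
  have hy : 0 ≤ yy x + ε := by
    have := SYS.RB.yy_pos x
    linarith
  refine ⟨min δ1 (θ / 2), ⌈((n1 : ℝ) + 3) / θ⌉₊, lt_min hδ1 (by linarith), ?_⟩
  intro n g l hn hg hl
  have hn0 : (0 : ℝ) ≤ n := Nat.cast_nonneg n
  have hg1 := (abs_le.1 hg).1
  have hm1 : min δ1 (θ / 2) * n ≤ δ1 * n := mul_le_mul_of_nonneg_right (min_le_left _ _) hn0
  have hm2 : min δ1 (θ / 2) * n ≤ θ / 2 * n := mul_le_mul_of_nonneg_right (min_le_right _ _) hn0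
  have hg2 : (θ - δ1) * n ≤ g := by linarith
  have hg3 : θ * n ≤ 2 * g := by linarith
  have hM : (n1 : ℝ) + 3 ≤ θ * n := by
    have h2 : ((n1 : ℝ) + 3) / θ ≤ n := (Nat.le_ceil _).trans (by exact_mod_cast hn)
    rw [div_le_iff₀ hθ] at h2
    linarith
  have hg4 : n1 + 3 ≤ 2 * g := by
    have h2 : ((n1 + 3 : ℕ) : ℝ) ≤ ((2 * g : ℕ) : ℝ) := by
      push_cast
      linarith
    exact_mod_cast h2
  induction l with
  | zero => rw [pow_zero, one_mul, Nat.sub_zero]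
  | succ l ih =>
    have ih' := ih (by omega)
    have e1 : n - (l + 1) = n - l - 1 := by omega
    rw [e1]
    have hp : 0 ≤ (yy x + ε) ^ (l + 1) * SST.nu n g := mul_nonneg (pow_nonneg hy _) (nu_nonneg' _ _)
    by_cases hc : n1 ≤ n - l
    · have h2 : (θ - δ1) * ((n - l : ℕ) : ℝ) ≤ g := by
        rcases le_total 0 (θ - δ1) with h3 | h3
        · refine le_trans (mul_le_mul_of_nonneg_left ?_ h3) hg2
          exact_mod_cast Nat.sub_le n l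
        · have h4 : (θ - δ1) * ((n - l : ℕ) : ℝ) ≤ 0 := mul_nonpos_of_nonpos_of_nonneg h3 (Nat.cast_nonneg _)
          exact h4.trans (Nat.cast_nonneg g)
      calc SST.nu (n - l - 1) g ≤ (yy x + ε) * SST.nu (n - l) g := h1 (n - l) hc g h2
        _ ≤ (yy x + ε) * ((yy x + ε) ^ l * SST.nu n g) := mul_le_mul_of_nonneg_left ih' hy
        _ = (yy x + ε) ^ (l + 1) * SST.nu n g := by ring
    · rw [SST.T.nu_eq_zero (n - l - 1) g (by omega)]
      exact hp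

theorem nu_low (h : Par θ x) {ε : ℝ} (hε : 0 < ε) (hε' : ε < yy x) :
    ∃ (δ : ℝ) (M : ℕ), 0 < δ ∧ ∀ n g l : ℕ, M ≤ n →
    |(g : ℝ) - θ * n| ≤ δ * n → (l : ℝ) ≤ δ * n →
      0 < SST.nu (n - l) g ∧ (yy x - ε) ^ l * SST.nu n g ≤ SST.nu (n - l) g := by
  obtain ⟨δ1, hδ1, n1, h1⟩ := SYS.RB.rat_eps h hε
  have hθ := h.1
  have hθ2 := h.2.1
  have hy : 0 ≤ yy x - ε := by linarith
  refine ⟨min (δ1 / 4) (1 / 4), 2 * n1 + 1, lt_min (by linarith) (by norm_num), ?_⟩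
  intro n g l hn hg hl
  have hn0 : (0 : ℝ) < n := by exact_mod_cast (by omega : 0 < n)
  have hm1 : min (δ1 / 4) (1 / 4) * (n : ℝ) ≤ δ1 / 4 * n := mul_le_mul_of_nonneg_right (min_le_left _ _) hn0.le
  have hm2 : min (δ1 / 4) (1 / 4) * (n : ℝ) ≤ 1 / 4 * n := mul_le_mul_of_nonneg_right (min_le_right _ _) hn0.le
  obtain ⟨δ, hδ⟩ : ∃ δ : ℝ, δ = min (δ1 / 4) (1 / 4) * (n : ℝ) := ⟨_, rfl⟩
  rw [← hδ] at hg hl hm1 hm2
  have hkey : ∀ l : ℕ, (l : ℝ) ≤ δ → n1 ≤ n - l ∧ |(g : ℝ) / ((n - l : ℕ) : ℝ) - θ| < δ1 := by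
    intro l hl
    have h2 : (l : ℝ) ≤ 1 / 4 * n := hl.trans hm2
    have h3 : 4 * l ≤ n := by
      have h4 : ((4 * l : ℕ) : ℝ) ≤ (n : ℝ) := by
        push_cast
        linarith
      exact_mod_cast h4
    refine ⟨by omega, ?_⟩
    have h5 : ((n - l : ℕ) : ℝ) = n - l := by
      rw [Nat.cast_sub (by omega)]
    have h6 : 3 / 4 * (n : ℝ) ≤ ((n - l : ℕ) : ℝ) := by
      rw [h5]
      linarith
    have h7 : (0 : ℝ) < ((n - l : ℕ) : ℝ) := by linarith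
    have h8 : (g : ℝ) / ((n - l : ℕ) : ℝ) - θ = ((g : ℝ) - θ * ((n - l : ℕ) : ℝ)) / ((n - l : ℕ) : ℝ) := by
      field_simp
    rw [h8, abs_div, abs_of_pos h7, div_lt_iff₀ h7]
    have h9 : |(g : ℝ) - θ * ((n - l : ℕ) : ℝ)| ≤ 2 * δ := by
      have h10 : (g : ℝ) - θ * ((n - l : ℕ) : ℝ) = ((g : ℝ) - θ * n) + θ * l := by
        rw [h5]
        ring
      rw [h10]
      refine (abs_add_le _ _).trans ?_
      have h11 : 0 ≤ θ * (l : ℝ) := mul_nonneg hθ.le (Nat.cast_nonneg l)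
      rw [abs_of_nonneg h11]
      have h12 : θ * (l : ℝ) ≤ 1 * δ := mul_le_mul (by linarith) hl (Nat.cast_nonneg l) zero_le_one
      linarith
    have h13 : 2 * δ ≤ δ1 / 2 * n := by linarith
    have h14 : δ1 / 2 * n < δ1 * (3 / 4 * (n : ℝ)) := by
      have : 0 < δ1 * n := mul_pos hδ1 hn0
      linarith
    have h15 : δ1 * (3 / 4 * (n : ℝ)) ≤ δ1 * ((n - l : ℕ) : ℝ) := mul_le_mul_of_nonneg_left h6 hδ1.le
    linarith
  refine ⟨(h1 (n - l) (hkey l hl).1 g (hkey l hl).2).1, ?_⟩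
  induction l with
  | zero => rw [pow_zero, one_mul, Nat.sub_zero]
  | succ l ih =>
    have hl' : (l : ℝ) ≤ δ := by
      push_cast at hl
      linarith
    have ih' := ih hl'
    have e1 : n - (l + 1) = n - l - 1 := by omega
    rw [e1]
    obtain ⟨-, h2, -⟩ := h1 (n - l) (hkey l hl').1 g (hkey l hl').2
    calc (yy x - ε) ^ (l + 1) * SST.nu n g = (yy x - ε) * ((yy x - ε) ^ l * SST.nu n g) := by ring
      _ ≤ (yy x - ε) * SST.nu (n - l) g := mul_le_mul_of_nonneg_left ih' hy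
      _ ≤ SST.nu (n - l - 1) g := h2

end SYS.Num
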